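import Mathlib
import Pool.Agent.X207.KQ1

set_option autoImplicit false

/-!
# MP_21a1fd_an, Q1: `√k/k!` is a multiplier sequence

Idea. The sequence `√k (2k)!/(4^k (k!)^2)` equals a constant times `1 - ∫ a^{2k} dν(a)` with `ν` a
probability measure on `[0,1]`; so suitable Chebyshev combinations
`L T_n - ∑_{j<n} s_j T_j` with `∑ |s_j| < L`, which have all their zeros in `[-1,1]`, converge after
rescaling to `∑ √k x^k/(k!)^2`. This part is in the starting library (file of `S06389`). Schur's
composition theorem, proved from the Schur–Szegő theorem by a limit, turns these real-rooted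
polynomials into multiplier sequences.
-/

open Polynomial

namespace Pool.Agent.Results.MP_21a1fd_an.SqrtSeq

/-- `γ` is a multiplier sequence: for every real polynomial `p = ∑ a_k x^k` all of whose complex
zeros are real (`p` nonzero), the polynomial `∑ γ_k a_k x^k` is either zero or has only real zeros. -/
def IsMultiplierSeq (γ : ℕ → ℝ) : Prop :=
  ∀ p : ℝ[X], p ≠ 0 → (∀ z : ℂ, aeval z p = 0 → z.im = 0) →
    ((∑ k ∈ Finset.range (p.natDegree + 1), C (γ k * p.coeff k) * X ^ k : ℝ[X]) = 0 ∨
    ∀ z : ℂ, aeval z (∑ k ∈ Finset.range (p.natDegree + 1), C (γ k * p.coeff k) * X ^ k : ℝ[X]) = 0 →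
      z.im = 0)

/-- Q1 has a positive answer: `√k/k!` is a multiplier sequence. -/
theorem result : IsMultiplierSeq (fun k => Real.sqrt (k : ℝ) / (Nat.factorial k : ℝ)) := by
  intro p _ hp
  have hsp := Pool.Agent.H635Z.splits_of_real p hp
  have h := Pool.Agent.X207.KQ.sqrt_splits p hsp
  by_cases h0 : (∑ k ∈ Finset.range (p.natDegree + 1),
      C (Real.sqrt (k : ℝ) / (Nat.factorial k : ℝ) * p.coeff k) * X ^ k : ℝ[X]) = 0
  · exact Or.inl h0
  · exact Or.inr (fun z hz => Pool.Agent.H635Z.real_of_splits _ h h0 z hz)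

end Pool.Agent.Results.MP_21a1fd_an.SqrtSeq
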